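import Pool.Agent.H94.UV.EmuCore

/-!
Module COMM of MP_5607ba_lc: without order configurations iterated limits commute.
-/

set_option autoImplicit false

open Set Filter Topology

namespace Pool.Agent.H94.UV

open Pool.Agent.H72.UV

lemma usedIdx_map_prod {κ κ' J ι ι' : Type} (a : κ → κ') (b : ι → ι') (l : List (κ ⊕ J × ι)) :
    usedIdx (l.map (Sum.map a (Prod.map id b))) = usedIdx l := by
  ext j
  simp only [usedIdx, mem_ofPred_eq, List.mem_map]
  constructor
  · rintro ⟨i, x, hx, hx2⟩
    rcases x with y | ⟨j', i'⟩
    · simp at hx2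
    · simp only [Sum.map_inr, Prod.map_apply, id, Sum.inr.injEq, Prod.mk.injEq] at hx2
      obtain ⟨rfl, -⟩ := hx2
      exact ⟨i', hx⟩
  · rintro ⟨i, hi⟩
    exact ⟨b i, _, hi, rfl⟩

lemma OrdInv_comap {κ κ' J ι ι' C : Type} [LinearOrder J] {e : Str (κ' ⊕ J × ι') C}
    (he : OrdInv e) (a : κ → κ') (b : ι → ι') :
    OrdInv (fun l : List (κ ⊕ J × ι) => e (l.map (Sum.map a (Prod.map id b)))) := by
  intro l f hf
  have := he (l.map (Sum.map a (Prod.map id b))) f (by rwa [usedIdx_map_prod])
  change e _ = e _
  rw [← this, List.map_map, List.map_map]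
  congr 2
  funext x
  rcases x with y | ⟨j, i⟩ <;> rfl

theorem comm : T_EMU → T_COMM := by
  intro hEMU M C c m hc hm hcfg ι κ _ _ U V hU hV l z hz
  classical
  obtain ⟨z', -, hz'⟩ := exists_ae₂ V U (fun v u => c (l.map (Sum.elim id (Sum.elim u v)))) hc
    (fun v u => ⟨_, rfl⟩)
  by_cases hzz : z' = z
  · rw [← hzz]
    exact hz'
  exfalso
  have hZ : Free (sumU U V) := hU.sumU hV
  obtain ⟨e, he1, he2, he3, he4⟩ := hEMU M C (ι ⊕ κ) inferInstance c m hc hm (sumU U V) hZ
  -- first value
  have h01 : e (l.map (place 0 1)) = z := by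
    have h1 := he4 (l.map (place 0 1)) 0 (by
      rintro j ⟨i, hi⟩
      rw [List.mem_map] at hi
      obtain ⟨x, -, hx⟩ := hi
      rcases x with y | x | x
      · simp [place] at hx
      · simp only [place, Sum.inr.injEq, Prod.mk.injEq] at hx
        rw [← hx.1]
      · simp only [place, Sum.inr.injEq, Prod.mk.injEq] at hx
        rw [← hx.1]
        exact zero_le_one)
    rw [eventually_sumU] at h1
    have h2 : ∀ᶠ u in (U : Filter (ι → M)), ∀ᶠ v in (V : Filter (κ → M)),
        c (l.map (Sum.elim id (Sum.elim u v))) = e (l.map (place 0 1)) := by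
      filter_upwards [h1] with u hu
      obtain ⟨v0, hv0⟩ := hu.exists
      have h3 := he4 ((l.map (place 0 1)).map (subst 0 (Sum.elim u v0))) 1 (by
        rintro j ⟨i, hi⟩
        rw [List.map_map, List.mem_map] at hi
        obtain ⟨x, -, hx⟩ := hi
        rcases x with y | x | x
        · simp [place, subst] at hx
        · simp [place, subst] at hx
        · simp only [place, subst, Function.comp, one_ne_zero, if_false, Sum.inr.injEq,
            Prod.mk.injEq] at hx
          rw [← hx.1])
      rw [eventually_sumU] at h3
      obtain ⟨u1, hu1⟩ := h3.exists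
      filter_upwards [hu1] with v hv
      rw [← hv0, ← hv, ← he1]
      congr 1
      simp only [List.map_map]
      congr 1
      funext x
      rcases x with y | x | x
      · rfl
      · rfl
      · simp [place, subst, Function.comp]
    obtain ⟨u, hu1, hu2⟩ := (h2.and hz).exists
    exact ae_unique hu1 hu2
  have h10 : e (l.map (place 1 0)) = z' := by
    have h1 := he4 (l.map (place 1 0)) 0 (by
      rintro j ⟨i, hi⟩
      rw [List.mem_map] at hi
      obtain ⟨x, -, hx⟩ := hi
      rcases x with y | x | x
      · simp [place] at hx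
      · simp only [place, Sum.inr.injEq, Prod.mk.injEq] at hx
        rw [← hx.1]
        exact zero_le_one
      · simp only [place, Sum.inr.injEq, Prod.mk.injEq] at hx
        rw [← hx.1])
    rw [eventually_sumU] at h1
    obtain ⟨u0, hu0⟩ := h1.exists
    have h2 : ∀ᶠ v in (V : Filter (κ → M)), ∀ᶠ u in (U : Filter (ι → M)),
        c (l.map (Sum.elim id (Sum.elim u v))) = e (l.map (place 1 0)) := by
      filter_upwards [hu0] with v hv
      have h3 := he4 ((l.map (place 1 0)).map (subst 0 (Sum.elim u0 v))) 1 (by
        rintro j ⟨i, hi⟩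
        rw [List.map_map, List.mem_map] at hi
        obtain ⟨x, -, hx⟩ := hi
        rcases x with y | x | x
        · simp [place, subst] at hx
        · simp only [place, subst, Function.comp, one_ne_zero, if_false, Sum.inr.injEq,
            Prod.mk.injEq] at hx
          rw [← hx.1]
        · simp [place, subst] at hx)
      rw [eventually_sumU] at h3
      filter_upwards [h3] with u hu
      obtain ⟨v1, hv1⟩ := hu.exists
      rw [← hv, ← hv1, ← he1]
      congr 1
      simp only [List.map_map]
      congr 1
      funext x
      rcases x with y | x | x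
      · rfl
      · simp [place, subst, Function.comp]
      · rfl
    obtain ⟨v, hv1, hv2⟩ := (h2.and hz').exists
    exact ae_unique hv1 hv2
  -- restriction to finitely many constants
  let F : Finset M := (l.filterMap Sum.getLeft?).toFinset
  let kap : Fin F.card → M := fun i => (F.equivFin.symm i : M)
  have hkap : Function.Injective kap := fun i j h => F.equivFin.symm.injective (Subtype.ext h)
  let ea := (Finite.equivFin ι).symm
  let eb := (Finite.equivFin κ).symm
  obtain ⟨l', hl'⟩ : l ∈ range (List.map (Sum.map kap (Sum.map ea eb))) := by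
    rw [Set.range_list_map]
    intro x hx
    rcases x with y | i | i
    · have hy : y ∈ F := by
        simp only [F, List.mem_toFinset, List.mem_filterMap]
        exact ⟨_, hx, rfl⟩
      exact ⟨Sum.inl (F.equivFin ⟨y, hy⟩), by simp [kap]⟩
    · exact ⟨Sum.inr (Sum.inl (ea.symm i)), by simp⟩
    · exact ⟨Sum.inr (Sum.inr (eb.symm i)), by simp⟩
  refine hcfg _ ⟨F.card, _, _, rfl, fun l => e (l.map (Sum.map kap (Prod.map id
    (Sum.map ea eb)))), ?_, ?_, l', ?_⟩
  · refine he2.comap ?_
    refine Function.Injective.sumMap hkap ?_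
    exact Function.injective_id.prodMap (ea.injective.sumMap eb.injective)
  · exact OrdInv_comap he3 _ _
  · have h : ∀ a b : ℚ, (l'.map (place a b)).map (Sum.map kap (Prod.map id (Sum.map ea eb))) =
        l.map (place a b) := by
      intro a b
      rw [← hl', List.map_map, List.map_map]
      congr 1
      funext x
      rcases x with y | i | i <;> rfl
    change e _ ≠ e _
    rw [h, h, h01, h10]
    exact fun h => hzz h.symm

end Pool.Agent.H94.UV
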