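import Pool.Agent.H94.UV.EmuCore

/-!
Module EMU of MP_5607ba_lc: indiscernible sequences from a free ultrafilter.
-/

set_option autoImplicit false

open Set Filter Topology

namespace Pool.Agent.H94.UV

open Pool.Agent.H72.UV

theorem emu : T_EMU := by
  intro M C ι _ c m hc hm U hU
  have he := exists_emu (J := ℚ) c hc U
  exact ⟨_, he.inl, he.below hU hm, he.ordInv, he.min⟩

end Pool.Agent.H94.UV
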