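import Pool.Agent.H94.UV.EmuCore

/-!
Module GEN of MP_5607ba_lc: independent generic copies of a free ultrafilter.
-/

set_option autoImplicit false

open Set Filter Topology

namespace Pool.Agent.H94.UV

open Pool.Agent.H72.UV

/-- exchange of two iterated limits in the presence of further inner limits -/
lemma comm3 {M C ι κ τ : Type} [Finite ι] [Finite κ] [Finite τ] {c : Str M C} (hc : Comm c)
    {U : Ultrafilter (ι → M)} {V : Ultrafilter (κ → M)} {W : Ultrafilter (τ → M)} (hU : Free U)
    (hV : Free V) (hW : Free W) (l : List (M ⊕ (ι ⊕ (κ ⊕ τ)))) (z : C)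
    (h : ∀ᶠ u in (U : Filter (ι → M)), ∀ᶠ v in (V : Filter (κ → M)),
      ∀ᶠ w in (W : Filter (τ → M)), c (l.map (Sum.elim id (Sum.elim u (Sum.elim v w)))) = z) :
    ∀ᶠ v in (V : Filter (κ → M)), ∀ᶠ u in (U : Filter (ι → M)),
      ∀ᶠ w in (W : Filter (τ → M)), c (l.map (Sum.elim id (Sum.elim u (Sum.elim v w)))) = z := by
  have h2 := hc ι (κ ⊕ τ) inferInstance inferInstance U (sumU V W) hU (hV.sumU hW) l z (by
    filter_upwards [h] with u hu
    rw [eventually_sumU]
    exact hu)
  rw [eventually_sumU] at h2
  filter_upwards [h2] with v hv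
  have h3 := hc τ ι inferInstance inferInstance W U hW hU (l.map fun x => match x with
    | Sum.inl y => Sum.inl y
    | Sum.inr (Sum.inl i) => Sum.inr (Sum.inr i)
    | Sum.inr (Sum.inr (Sum.inl k)) => Sum.inl (v k)
    | Sum.inr (Sum.inr (Sum.inr t)) => Sum.inr (Sum.inl t)) z (by
    filter_upwards [hv] with w hw
    filter_upwards [hw] with u hu
    rw [← hu, List.map_map]
    congr 2
    funext x
    rcases x with y | i | k | t <;> rfl)
  filter_upwards [h3] with u hu
  filter_upwards [hu] with w hw
  rw [← hw, List.map_map]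
  congr 2
  funext x
  rcases x with y | i | k | t <;> rfl

section gen

variable {M C ι J : Type} [LinearOrder J] [DecidableEq J]

omit [LinearOrder J] in
lemma subst_comm (l : List (M ⊕ J × ι)) (p q : J) (hpq : p ≠ q) (u v : ι → M) :
    (l.map (subst p u)).map (subst q v) = (l.map (subst q v)).map (subst p u) := by
  rw [List.map_map, List.map_map]
  refine List.map_congr_left fun x _ => ?_
  rcases x with y | ⟨j, i⟩
  · rfl
  · by_cases h : j = p
    · subst h
      simp [subst, hpq]
    · by_cases h' : j = q
      · subst h'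
        simp [subst, h]
      · simp [subst, h, h']

namespace Emu

variable {c : Str M C} {U : Ultrafilter (ι → M)} {e : Str (M ⊕ J × ι) C}

/-- the substitution property for all indices -/
lemma all [Finite ι] (he : Emu c U e) (hU : Free U) (hc : Comm c) (l : List (M ⊕ J × ι)) (q : J) :
    ∀ᶠ u in (U : Filter (ι → M)), e (l.map (subst q u)) = e l := by
  classical
  induction hn : (usedIdx l).ncard using Nat.strong_induction_on generalizing l with
  | _ n ih =>
    by_cases hq : q ∈ usedIdx l
    swap
    · refine Eventually.of_forall fun u => ?_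
      rw [subst_of_notMem hq]
    obtain ⟨q0, hq0, hmin⟩ : ∃ q ∈ usedIdx l, ∀ j ∈ usedIdx l, q ≤ j :=
      Set.exists_min_image (usedIdx l) id (usedIdx_finite l) ⟨q, hq⟩
    by_cases hqq : q0 = q
    · rw [← hqq]
      exact he.min l q0 hmin
    -- the rest
    let R : Finset J := ((usedIdx_finite l).toFinset.erase q0).erase q
    obtain ⟨W, hW, hW2⟩ := he.exists_W hU R
    let κ : Type := {p : J × ι // p.1 ∈ R}
    have hκ : Finite κ := by
      have : Finite (R × ι) := inferInstance
      exact Finite.of_injective (fun p : κ => ((⟨p.1.1, p.2⟩, p.1.2) : R × ι)) (by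
        rintro ⟨⟨j, i⟩, h⟩ ⟨⟨j', i'⟩, h'⟩ hh
        simp only [Prod.mk.injEq, Subtype.mk.injEq] at hh
        obtain ⟨rfl, rfl⟩ := hh
        rfl)
    have hW' : Free (W.map fun w => w ∘ (Subtype.val : κ → J × ι)) :=
      hW.comp Subtype.val_injective fun p => p.2
    let G : M ⊕ (ι ⊕ (ι ⊕ κ)) → M ⊕ J × ι
      | Sum.inl y => Sum.inl y
      | Sum.inr (Sum.inl i) => Sum.inr (q0, i)
      | Sum.inr (Sum.inr (Sum.inl i)) => Sum.inr (q, i)
      | Sum.inr (Sum.inr (Sum.inr p)) => Sum.inr p.1
    obtain ⟨l', hl'⟩ : l ∈ range (List.map G) := by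
      rw [Set.range_list_map]
      intro x hx
      rcases x with y | ⟨j, i⟩
      · exact ⟨Sum.inl y, rfl⟩
      · by_cases h1 : j = q0
        · exact ⟨Sum.inr (Sum.inl i), by rw [h1]⟩
        · by_cases h2 : j = q
          · exact ⟨Sum.inr (Sum.inr (Sum.inl i)), by rw [h2]⟩
          · have h3 : j ∈ R := by
              simp only [R, Finset.mem_erase, Set.Finite.mem_toFinset]
              exact ⟨h2, h1, ⟨i, hx⟩⟩
            exact ⟨Sum.inr (Sum.inr (Sum.inr ⟨(j, i), h3⟩)), rfl⟩
    have hval : ∀ u0 u : ι → M, ∀ᶠ w in ((W.map fun w => w ∘ (Subtype.val : κ → J × ι) :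
        Ultrafilter (κ → M)) : Filter (κ → M)),
        c (l'.map (Sum.elim id (Sum.elim u0 (Sum.elim u w)))) =
          e ((l.map (subst q0 u0)).map (subst q u)) := by
      intro u0 u
      rw [H72.UV.eventually_map]
      have h1 : usedIdx ((l.map (subst q0 u0)).map (subst q u)) ⊆ R := by
        rw [usedIdx_subst, usedIdx_subst]
        rintro j ⟨⟨h1, h2⟩, h3⟩
        simp only [R, Finset.mem_coe, Finset.mem_erase, Set.Finite.mem_toFinset]
        exact ⟨h3, h2, h1⟩
      filter_upwards [hW2 _ h1] with w hw
      rw [← hw, ← hl', List.map_map, List.map_map, List.map_map]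
      congr 2
      funext x
      rcases x with y | i | i | ⟨⟨j, i⟩, hj⟩
      · rfl
      · simp [G, subst]
      · simp [G, subst, Ne.symm hqq]
      · have hj' : j ≠ q ∧ j ≠ q0 := by
          simp only [R, Finset.mem_erase] at hj
          exact ⟨hj.1, hj.2.1⟩
        simp [G, subst, hj'.1, hj'.2]
    have hA : ∀ᶠ u0 in (U : Filter (ι → M)), ∀ᶠ u in (U : Filter (ι → M)),
        e ((l.map (subst q0 u0)).map (subst q u)) = e l := by
      filter_upwards [he.min l q0 hmin] with u0 hu0
      have := ih _ (by
        rw [← hn, usedIdx_subst]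
        exact ncard_sdiff_singleton_lt_of_mem hq0 (usedIdx_finite l)) (l.map (subst q0 u0)) rfl
      filter_upwards [this] with u hu
      rw [hu, hu0]
    have hB := comm3 hc hU hU hW' l' (e l) (by
      filter_upwards [hA] with u0 hu0
      filter_upwards [hu0] with u hu
      rw [← hu]
      exact hval u0 u)
    filter_upwards [hB] with u hu
    have hC := he.min (l.map (subst q u)) q0 (by
      rw [usedIdx_subst]
      exact fun j hj => hmin j hj.1)
    obtain ⟨u0, hu0, hu0'⟩ := (hu.and hC).exists
    rw [← hu0', ← subst_comm l q0 q hqq u0 u]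
    exact ae_unique (hval u0 u) hu0

lemma injInv [Finite ι] (he : Emu c U e) (hU : Free U) (hc : Comm c) (l : List (M ⊕ J × ι))
    (f : J → J) (hf : Function.Injective f) : e (l.map (mapIdx f)) = e l := by
  induction hn : (usedIdx l).ncard using Nat.strong_induction_on generalizing l with
  | _ n ih =>
    by_cases h : usedIdx l = ∅
    · obtain ⟨l', rfl⟩ := map_inl_of_usedIdx_eq_empty h
      rw [List.map_map]
      rfl
    · obtain ⟨q, hq⟩ := nonempty_iff_ne_empty.2 h
      have h1 := he.all hU hc l q
      have h2 := he.all hU hc (l.map (mapIdx f)) (f q)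
      obtain ⟨u, hu1, hu2⟩ := (h1.and h2).exists
      rw [← hu1, ← hu2, subst_mapIdx l f q (fun j hj h => hf h)]
      refine ih _ ?_ _ rfl
      rw [← hn, usedIdx_subst]
      exact ncard_sdiff_singleton_lt_of_mem hq (usedIdx_finite l)

/-- changing the coordinates inside the tuples -/
def act {M ι J : Type} (σ : J → ι → ι) : M ⊕ J × ι → M ⊕ J × ι :=
  Sum.map id fun x : J × ι => (x.1, σ x.1 x.2)

omit [LinearOrder J] in
lemma subst_act (l : List (M ⊕ J × ι)) (σ : J → ι → ι) (q : J) (hq : ∀ i, σ q i = i)
    (u : ι → M) : (l.map (act σ)).map (subst q u) = (l.map (subst q u)).map (act σ) := by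
  rw [List.map_map, List.map_map]
  refine List.map_congr_left fun x _ => ?_
  rcases x with y | ⟨j, i⟩
  · rfl
  · by_cases h : j = q
    · subst h
      simp [act, subst, hq]
    · simp [act, subst, h]

lemma act_one [Finite ι] (he : Emu c U e) (hU : Free U) (hc : Comm c) (n : J) (τ : ι → ι)
    (hτ : ∀ l : List (M ⊕ ι), ∀ᶠ u in (U : Filter (ι → M)),
      c (l.map (Sum.elim id (u ∘ τ))) = c (l.map (Sum.elim id u))) (l : List (M ⊕ J × ι)) :
    e (l.map (act (Function.update (fun _ => id) n τ))) = e l := by
  induction hk : (usedIdx l \ {n}).ncard using Nat.strong_induction_on generalizing l with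
  | _ k ih =>
    by_cases h : ∃ q ∈ usedIdx l, q ≠ n
    · obtain ⟨q, hq, hqn⟩ := h
      have h1 := he.all hU hc l q
      have h2 := he.all hU hc (l.map (act (Function.update (fun _ => id) n τ))) q
      obtain ⟨u, hu1, hu2⟩ := (h1.and h2).exists
      rw [← hu1, ← hu2, subst_act l _ q (by simp [Function.update_of_ne hqn])]
      refine ih _ ?_ _ rfl
      rw [← hk, usedIdx_subst]
      refine ncard_lt_ncard ?_ ((usedIdx_finite l).subset sdiff_subset)
      refine ⟨fun j hj => ⟨hj.1.1, hj.2⟩, fun hh => ?_⟩
      have := hh (show q ∈ usedIdx l \ {n} from ⟨hq, hqn⟩)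
      exact this.1.2 rfl
    · push Not at h
      have h1 := he.all hU hc l n
      have h2 := he.all hU hc (l.map (act (Function.update (fun _ => id) n τ))) n
      obtain ⟨l', hl'⟩ : l ∈ range (List.map (Sum.map id (Prod.mk n) : M ⊕ ι → M ⊕ J × ι)) := by
        rw [Set.range_list_map]
        intro x hx
        rcases x with y | ⟨j, i⟩
        · exact ⟨Sum.inl y, rfl⟩
        · exact ⟨Sum.inr i, by rw [h j ⟨i, hx⟩]; rfl⟩
      obtain ⟨u, hu1, hu2, hu3⟩ := (h1.and (h2.and (hτ l'))).exists
      rw [← hu1, ← hu2]
      have e1 : l.map (subst n u) = (l'.map (Sum.elim id u)).map Sum.inl := by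
        rw [← hl', List.map_map, List.map_map]
        congr 1
        funext x
        rcases x with y | i
        · rfl
        · simp [subst]
      have e2 : (l.map (act (Function.update (fun _ => id) n τ))).map (subst n u) =
          (l'.map (Sum.elim id (u ∘ τ))).map Sum.inl := by
        rw [← hl', List.map_map, List.map_map, List.map_map]
        congr 1
        funext x
        rcases x with y | i
        · rfl
        · simp [act, subst]
      rw [e1, e2, he.inl, he.inl, hu3]

lemma act_all [Finite ι] (he : Emu c U e) (hU : Free U) (hc : Comm c) (σ : J → ι → ι)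
    (hσ : ∀ n, ∀ l : List (M ⊕ ι), ∀ᶠ u in (U : Filter (ι → M)),
      c (l.map (Sum.elim id (u ∘ σ n))) = c (l.map (Sum.elim id u))) (l : List (M ⊕ J × ι)) :
    e (l.map (act σ)) = e l := by
  classical
  have key : ∀ S : Finset J, e (l.map (act fun j => if j ∈ S then σ j else id)) = e l := by
    intro S
    induction S using Finset.induction_on with
    | empty =>
      congr 1
      conv_rhs => rw [← List.map_id l]
      refine List.map_congr_left fun x _ => ?_
      rcases x with y | ⟨j, i⟩ <;> simp [act]
    | insert n S hn ih =>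
      rw [← ih, ← he.act_one hU hc n (σ n) (hσ n)
        (l.map (act fun j => if j ∈ S then σ j else id)), List.map_map]
      congr 1
      refine List.map_congr_left fun x _ => ?_
      rcases x with y | ⟨j, i⟩
      · rfl
      · by_cases h : j = n
        · subst h
          simp [act, hn]
        · simp [act, h]
  rw [← key (usedIdx_finite l).toFinset]
  congr 1
  refine List.map_congr_left fun x hx => ?_
  rcases x with y | ⟨j, i⟩
  · rfl
  · have : j ∈ usedIdx l := ⟨i, hx⟩
    simp [act, this]

end Emu

end gen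

theorem gen : T_GEN := by
  intro M C ι _ c m hc hm hcomm U hU
  have he := exists_emu (J := ℕ) c hc U
  exact ⟨_, he.inl, he.below hU hm, he.all hU hcomm, he.injInv hU hcomm,
    fun σ _ hσ => he.act_all hU hcomm σ hσ⟩

end Pool.Agent.H94.UV
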