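import Pool.Agent.H72.UV.Basic
import Pool.Agent.H72.UV.Targets

/-!
Iterated limits along a free ultrafilter, for an arbitrary linear order of indices.
-/

set_option autoImplicit false

open Set Filter Topology

namespace Pool.Agent.H94.UV

open Pool.Agent.H72.UV

section core

variable {M C ι J : Type}

lemma usedIdx_finite {κ : Type} (l : List (κ ⊕ J × ι)) : (usedIdx l).Finite := by
  classical
  refine (Set.finite_range fun x : {x // x ∈ l} => x).image (fun x : {x // x ∈ l} =>
    Sum.elim (fun _ => (none : Option J)) (fun p => some p.1) x.1) |>.preimage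
      (f := fun j : J => some j) (Option.some_injective J).injOn |>.subset ?_
  rintro j ⟨i, hi⟩
  exact ⟨⟨_, hi⟩, ⟨⟨_, hi⟩, rfl⟩, rfl⟩

lemma subst_of_notMem [DecidableEq J] {l : List (M ⊕ J × ι)} {q : J} (hq : q ∉ usedIdx l)
    (u : ι → M) : l.map (subst q u) = l := by
  conv_rhs => rw [← List.map_id l]
  refine List.map_congr_left fun x hx => ?_
  rcases x with y | ⟨j, i⟩
  · rfl
  · have : j ≠ q := fun h => hq ⟨i, h ▸ hx⟩
    simp [subst, this]

lemma usedIdx_subst [DecidableEq J] (l : List (M ⊕ J × ι)) (q : J) (u : ι → M) :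
    usedIdx (l.map (subst q u)) = usedIdx l \ {q} := by
  ext j
  simp only [usedIdx, mem_ofPred_eq, Set.mem_sdiff, mem_singleton_iff, List.mem_map]
  constructor
  · rintro ⟨i, x, hx, hx2⟩
    rcases x with y | ⟨j', i'⟩
    · simp [subst] at hx2
    · by_cases h : j' = q
      · simp [subst, h] at hx2
      · simp only [subst, h, if_false, Sum.inr.injEq, Prod.mk.injEq] at hx2
        obtain ⟨rfl, rfl⟩ := hx2
        exact ⟨⟨i', hx⟩, h⟩
  · rintro ⟨⟨i, hi⟩, hj⟩
    exact ⟨i, _, hi, by simp [subst, hj]⟩

open Classical in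
/-- the almost everywhere constant value -/
noncomputable def ulim {X : Type} (U : Ultrafilter X) (f : X → C) (d : C) : C :=
  if h : ∃ v, ∀ᶠ x in (U : Filter X), f x = v then h.choose else d

lemma ulim_spec {X : Type} {U : Ultrafilter X} {f : X → C} {d : C} (hf : (range f).Finite) :
    ∀ᶠ x in (U : Filter X), f x = ulim U f d := by
  obtain ⟨v, -, hv⟩ := exists_ae U f hf
  have h : ∃ v, ∀ᶠ x in (U : Filter X), f x = v := ⟨v, hv⟩
  rw [ulim, dif_pos h]
  exact h.choose_spec

lemma ulim_mem {X : Type} {U : Ultrafilter X} {f : X → C} {d : C} {R : Set C}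
    (hf : ∀ x, f x ∈ R) (hd : d ∈ R) : ulim U f d ∈ R := by
  rw [ulim]
  split_ifs with h
  · obtain ⟨x, hx⟩ := h.choose_spec.exists
    rw [← hx]
    exact hf x
  · exact hd

open Classical in
/-- iterated limits, with fuel -/
noncomputable def E [LinearOrder J] [DecidableEq J] (c : Str M C) (U : Ultrafilter (ι → M)) :
    ℕ → Str (M ⊕ J × ι) C
  | 0, l => c (l.filterMap Sum.getLeft?)
  | n + 1, l => if h : ∃ q ∈ usedIdx l, ∀ j ∈ usedIdx l, q ≤ j then
      ulim U (fun u => E c U n (l.map (subst h.choose u))) (c []) else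
      c (l.filterMap Sum.getLeft?)

variable [LinearOrder J] [DecidableEq J]

lemma E_mem (c : Str M C) (U : Ultrafilter (ι → M)) (n : ℕ) :
    ∀ l : List (M ⊕ J × ι), E c U n l ∈ range c := by
  induction n with
  | zero => exact fun l => ⟨_, rfl⟩
  | succ n ih =>
    intro l
    rw [E]
    split_ifs with h
    · exact ulim_mem (fun u => ih _) ⟨_, rfl⟩
    · exact ⟨_, rfl⟩

/-- the structure of iterated limits -/
noncomputable def ee (c : Str M C) (U : Ultrafilter (ι → M)) : Str (M ⊕ J × ι) C :=
  fun l => E c U (usedIdx l).ncard l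

/-- `e` consists of iterated limits -/
structure Emu (c : Str M C) (U : Ultrafilter (ι → M)) (e : Str (M ⊕ J × ι) C) : Prop where
  inl : ∀ l : List M, e (l.map Sum.inl) = c l
  min : ∀ (l : List (M ⊕ J × ι)) (q : J), (∀ j ∈ usedIdx l, q ≤ j) →
    ∀ᶠ u in (U : Filter (ι → M)), e (l.map (subst q u)) = e l

lemma exists_emu (c : Str M C) (hc : (range c).Finite) (U : Ultrafilter (ι → M)) :
    Emu (J := J) c U (ee c U) := by
  constructor
  · intro l
    have h : usedIdx (l.map Sum.inl : List (M ⊕ J × ι)) = ∅ := by
      ext j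
      simp [usedIdx]
    rw [ee, h, ncard_empty, E]
    congr 1
    rw [List.filterMap_map]
    conv_rhs => rw [← List.filterMap_some (l := l)]
    rfl
  · intro l q hq
    by_cases h : q ∈ usedIdx l
    · have h1 : ∃ q ∈ usedIdx l, ∀ j ∈ usedIdx l, q ≤ j := ⟨q, h, hq⟩
      have h2 : h1.choose = q := le_antisymm (h1.choose_spec.2 q h) (hq _ h1.choose_spec.1)
      have h3 : ∀ u : ι → M, (usedIdx (l.map (subst q u))).ncard + 1 = (usedIdx l).ncard := by
        intro u
        rw [usedIdx_subst]
        exact ncard_sdiff_singleton_add_one h (usedIdx_finite l)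
      obtain ⟨n, hn⟩ : ∃ n, (usedIdx l).ncard = n + 1 := by
        have := (ncard_pos (usedIdx_finite l)).2 ⟨q, h⟩
        exact ⟨(usedIdx l).ncard - 1, by omega⟩
      have h4 : ee c U l = ulim U (fun u => ee c U (l.map (subst q u))) (c []) := by
        rw [ee, hn, E, dif_pos h1, h2]
        congr 1
        funext u
        have := h3 u
        rw [ee, show (usedIdx (l.map (subst q u))).ncard = n by omega]
      rw [h4]
      refine ulim_spec (hc.subset ?_)
      rintro _ ⟨u, rfl⟩
      exact E_mem c U _ _
    · refine Eventually.of_forall fun u => ?_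
      rw [subst_of_notMem h]

namespace Emu

variable {c : Str M C} {U : Ultrafilter (ι → M)} {e : Str (M ⊕ J × ι) C}

/-- the product ultrafilter on the tuples with indices in `R` -/
lemma exists_W [Finite ι] (he : Emu c U e) (hU : Free U) (R : Finset J) :
    ∃ W : Ultrafilter (J × ι → M), FreeOn {p | p.1 ∈ R} W ∧ ∀ l : List (M ⊕ J × ι),
      usedIdx l ⊆ R → ∀ᶠ w in (W : Filter (J × ι → M)), c (l.map (Sum.elim id w)) = e l := by
  classical
  induction R using Finset.induction_on_min with
  | empty =>
    obtain ⟨u⟩ : Nonempty (ι → M) := U.nonempty_of_mem Filter.univ_mem |>.to_type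
    refine ⟨pure fun p => u p.2, ⟨by simp, by simp⟩, fun l hl => ?_⟩
    change c (l.map _) = e l
    have h : l = (l.map (Sum.elim id fun p : J × ι => u p.2)).map Sum.inl := by
      rw [List.map_map]
      conv_lhs => rw [← List.map_id l]
      refine List.map_congr_left fun x hx => ?_
      rcases x with y | ⟨j, i⟩
      · rfl
      · exact absurd (hl ⟨i, hx⟩) (by simp)
    conv_rhs => rw [h]
    rw [he.inl]
  | insert q R hq ih =>
    obtain ⟨W, hW, hW2⟩ := ih
    refine ⟨(prodU U W).map fun p => fun x : J × ι => if x.1 = q then p.1 x.2 else p.2 x,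
      ⟨?_, ?_⟩, ?_⟩
    · intro x hx y hy hxy
      rw [H72.UV.eventually_map, eventually_prodU]
      by_cases h1 : x.1 = q <;> by_cases h2 : y.1 = q
      · have : x.2 ≠ y.2 := fun h => hxy (Prod.ext (h1.trans h2.symm) h)
        filter_upwards [hU.1 _ _ this] with u hu
        refine Eventually.of_forall fun w => ?_
        simpa [h1, h2] using hu
      · have hy' : y ∈ {p : J × ι | p.1 ∈ R} := by
          have : y.1 ∈ insert q R := hy
          rw [Finset.mem_insert] at this
          exact this.resolve_left h2
        refine Eventually.of_forall fun u => ?_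
        filter_upwards [hW.2 y hy' (u x.2)] with w hw
        simpa [h1, h2] using fun h => hw h.symm
      · have hx' : x ∈ {p : J × ι | p.1 ∈ R} := by
          have : x.1 ∈ insert q R := hx
          rw [Finset.mem_insert] at this
          exact this.resolve_left h1
        refine Eventually.of_forall fun u => ?_
        filter_upwards [hW.2 x hx' (u y.2)] with w hw
        simpa [h1, h2] using hw
      · have hy' : y ∈ {p : J × ι | p.1 ∈ R} := by
          have : y.1 ∈ insert q R := hy
          rw [Finset.mem_insert] at this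
          exact this.resolve_left h2
        have hx' : x ∈ {p : J × ι | p.1 ∈ R} := by
          have : x.1 ∈ insert q R := hx
          rw [Finset.mem_insert] at this
          exact this.resolve_left h1
        refine Eventually.of_forall fun u => ?_
        filter_upwards [hW.1 x hx' y hy' hxy] with w hw
        simpa [h1, h2] using hw
    · intro x hx z
      rw [H72.UV.eventually_map, eventually_prodU]
      by_cases h1 : x.1 = q
      · filter_upwards [hU.2 x.2 z] with u hu
        refine Eventually.of_forall fun w => ?_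
        simpa [h1] using hu
      · have hx' : x ∈ {p : J × ι | p.1 ∈ R} := by
          have : x.1 ∈ insert q R := hx
          rw [Finset.mem_insert] at this
          exact this.resolve_left h1
        refine Eventually.of_forall fun u => ?_
        filter_upwards [hW.2 x hx' z] with w hw
        simpa [h1] using hw
    · intro l hl
      rw [H72.UV.eventually_map, eventually_prodU]
      have h1 : ∀ j ∈ usedIdx l, q ≤ j := by
        intro j hj
        have := hl hj
        rw [Finset.mem_coe, Finset.mem_insert] at this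
        rcases this with rfl | h
        · exact le_rfl
        · exact (hq j h).le
      filter_upwards [he.min l q h1] with u hu
      have h2 : usedIdx (l.map (subst q u)) ⊆ R := by
        rw [usedIdx_subst]
        rintro j ⟨hj, hj2⟩
        have := hl hj
        rw [Finset.mem_coe, Finset.mem_insert] at this
        exact this.resolve_left hj2
      filter_upwards [hW2 _ h2] with w hw
      rw [← hu, ← hw, List.map_map]
      congr 2
      funext x
      rcases x with y | ⟨j, i⟩
      · rfl
      · by_cases h : j = q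
        · simp [subst, h]
        · simp [subst, h]

lemma long [Finite ι] (he : Emu c U e) (hU : Free U) {m : ℕ} {v : C}
    (hv : ∀ l : List M, m < l.length → c l = v) (l : List (M ⊕ J × ι)) (hl : m < l.length) :
    e l = v := by
  obtain ⟨W, -, hW⟩ := he.exists_W hU (usedIdx_finite l).toFinset
  obtain ⟨w, hw⟩ := (hW l (by simp)).exists
  rw [← hw, hv _ (by simpa using hl)]

lemma below [Finite ι] (he : Emu c U e) (hU : Free U) {m : ℕ}
    (hm : ∃ v, ∀ l : List M, m < l.length → c l = v) : Below e c := by
  classical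
  obtain ⟨v, hv⟩ := hm
  intro F
  let R : Finset J := (F.toList.map (Sum.elim (fun _ => (none : Option J))
    fun p : J × ι => some p.1)).toFinset.eraseNone
  have hR : ∀ j i, Sum.inr (j, i) ∈ F → j ∈ R := by
    intro j i h
    simp only [R, Finset.mem_eraseNone, List.mem_toFinset, List.mem_map, Finset.mem_toList]
    exact ⟨_, h, rfl⟩
  obtain ⟨W, hW, hW2⟩ := he.exists_W hU R
  have h1 : ∀ᶠ w in (W : Filter (J × ι → M)), ∀ x ∈ F, ∀ y ∈ F, x ≠ y →
      Sum.elim id w x ≠ Sum.elim id w y := by
    rw [Filter.eventually_all_finset]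
    intro x hx
    rw [Filter.eventually_all_finset]
    intro y hy
    by_cases hxy : x = y
    · exact Eventually.of_forall fun w h => absurd hxy h
    · rcases x with x | ⟨j, i⟩ <;> rcases y with y | ⟨j', i'⟩
      · refine Eventually.of_forall fun w h => ?_
        simp only [Sum.elim_inl, id]
        exact fun h' => h (by rw [h'])
      · filter_upwards [hW.2 (j', i') (hR _ _ hy) x] with w hw h h2
        exact hw h2.symm
      · filter_upwards [hW.2 (j, i) (hR _ _ hx) y] with w hw h h2
        exact hw h2
      · filter_upwards [hW.1 (j, i) (hR _ _ hx) (j', i') (hR _ _ hy)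
          (fun h => hxy (by rw [h]))] with w hw h h2
        exact hw h2
  have h2 : ∀ᶠ w in (W : Filter (J × ι → M)), ∀ l ∈ {l : List (M ⊕ J × ι) | l.length ≤ m ∧
      ∀ x ∈ l, x ∈ F}, c (l.map (Sum.elim id w)) = e l := by
    rw [Filter.eventually_all_finite]
    · rintro l ⟨-, hl⟩
      refine hW2 l ?_
      rintro j ⟨i, hi⟩
      exact hR _ _ (hl _ hi)
    · have : {l : List (M ⊕ J × ι) | l.length ≤ m ∧ ∀ x ∈ l, x ∈ F} ⊆
          (List.map (Subtype.val : {x // x ∈ F} → _)) '' {l | l.length ≤ m} := by
        rintro l ⟨hl, hl2⟩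
        exact ⟨l.attachWith (fun x => x ∈ F) hl2, by simpa using hl,
          List.attachWith_map_subtype_val hl2⟩
      exact ((List.finite_length_le _ m).image _).subset this
  obtain ⟨w, hw1, hw2⟩ := (h1.and h2).exists
  refine ⟨Sum.elim id w, ?_, ?_⟩
  · intro x hx y hy hxy
    by_contra h
    exact hw1 x hx y hy h hxy
  · intro l hl
    by_cases hlm : l.length ≤ m
    · exact hw2 l ⟨hlm, hl⟩
    · rw [he.long hU hv l (not_le.1 hlm), hv _ (by simpa using not_le.1 hlm)]

omit [LinearOrder J] [DecidableEq J] in
lemma map_inl_of_usedIdx_eq_empty {l : List (M ⊕ J × ι)} (h : usedIdx l = ∅) :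
    ∃ l' : List M, l = l'.map Sum.inl := by
  refine ⟨l.filterMap Sum.getLeft?, ?_⟩
  induction l with
  | nil => rfl
  | cons x l ih =>
    rcases x with y | ⟨j, i⟩
    · simp only [List.filterMap_cons, Sum.getLeft?_inl, List.map_cons, List.cons.injEq, true_and]
      refine ih ?_
      rw [eq_empty_iff_forall_notMem] at h ⊢
      rintro j ⟨i, hi⟩
      exact h j ⟨i, List.mem_cons_of_mem _ hi⟩
    · exact absurd (show j ∈ usedIdx (Sum.inr (j, i) :: l) from ⟨i, List.mem_cons_self⟩)
        (by rw [h]; exact notMem_empty j)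

omit [LinearOrder J] [DecidableEq J] in
lemma usedIdx_mapIdx {J' : Type} {κ : Type} (l : List (κ ⊕ J × ι)) (f : J → J') :
    usedIdx (l.map (mapIdx f)) = f '' usedIdx l := by
  ext j
  simp only [usedIdx, mem_ofPred_eq, List.mem_map, mem_image]
  constructor
  · rintro ⟨i, x, hx, hx2⟩
    rcases x with y | ⟨j', i'⟩
    · simp [mapIdx] at hx2
    · simp only [mapIdx, Sum.map_inr, Prod.map_apply, id, Sum.inr.injEq, Prod.mk.injEq] at hx2
      exact ⟨j', ⟨i', hx⟩, hx2.1⟩
  · rintro ⟨j', ⟨i, hi⟩, rfl⟩
    exact ⟨i, _, hi, rfl⟩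

omit [LinearOrder J] in
lemma subst_mapIdx {J' : Type} [DecidableEq J'] (l : List (M ⊕ J × ι)) (f : J → J') (q : J)
    (hf : ∀ j ∈ usedIdx l, f j = f q → j = q) (u : ι → M) :
    (l.map (mapIdx f)).map (subst (f q) u) = (l.map (subst q u)).map (mapIdx f) := by
  rw [List.map_map, List.map_map]
  refine List.map_congr_left fun x hx => ?_
  rcases x with y | ⟨j, i⟩
  · rfl
  · by_cases h : j = q
    · simp [mapIdx, subst, h]
    · have : f j ≠ f q := fun h2 => h (hf j ⟨i, hx⟩ h2)
      simp [mapIdx, subst, h, this]

lemma ordInv (he : Emu c U e) : OrdInv e := by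
  intro l f hf
  induction hn : (usedIdx l).ncard using Nat.strong_induction_on generalizing l with
  | _ n ih =>
    by_cases h : usedIdx l = ∅
    · obtain ⟨l', rfl⟩ := map_inl_of_usedIdx_eq_empty h
      rw [List.map_map]
      rfl
    · obtain ⟨q, hq, hq2⟩ : ∃ q ∈ usedIdx l, ∀ j ∈ usedIdx l, q ≤ j :=
        Set.exists_min_image (usedIdx l) id (usedIdx_finite l) (nonempty_iff_ne_empty.2 h)
      have h1 := he.min l q hq2
      have h2 := he.min (l.map (mapIdx f)) (f q) (by
        rw [usedIdx_mapIdx]
        rintro _ ⟨j, hj, rfl⟩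
        exact hf.monotoneOn hq hj (hq2 j hj))
      obtain ⟨u, hu1, hu2⟩ := (h1.and h2).exists
      rw [← hu1, ← hu2, subst_mapIdx l f q (fun j hj h => hf.injOn hj hq h)]
      refine ih _ ?_ _ ?_ rfl
      · rw [← hn, usedIdx_subst]
        exact ncard_sdiff_singleton_lt_of_mem hq (usedIdx_finite l)
      · rw [usedIdx_subst]
        exact hf.mono sdiff_subset

end Emu

end core

end Pool.Agent.H94.UV
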